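import Mathlib
import Pool.Agent.Lead.Mon

namespace Pool.Agent.Results.MP_c1fe20_lc.Q1
open MeasureTheory Pool.Agent.Lead

theorem result {X : Type} [TopologicalSpace X] [PolishSpace X] (R : X → X → Prop)
    (hr : ∀ x, R x x) (ht : ∀ x y z, R x y → R y z → R x z)
    (hR : AnalyticSet {p : X × X | R p.1 p.2}) :
    ∃ (M : Type) (_ : Monoid M) (_ : TopologicalSpace M) (Y : Type) (_ : TopologicalSpace Y)
      (a : M → Y → Y), PolishSpace M ∧ ContinuousMul M ∧ PolishSpace Y ∧
      Continuous (fun p : M × Y => a p.1 p.2) ∧ (∀ y, a 1 y = y) ∧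
      (∀ g h y, a h (a g y) = a (h * g) y) ∧
      (∃ f : X → Y, @Measurable _ _ (borel X) (borel Y) f ∧
        ∀ x x', R x x' ↔ ∃ g, a g (f x) = f x') ∧
      (∃ f : Y → X, @Measurable _ _ (borel Y) (borel X) f ∧
        ∀ y y', (∃ g, a g y = y') ↔ R (f y) (f y')) := by
  rcases isEmpty_or_nonempty X with hX | hX
  · exact ⟨Unit, inferInstance, inferInstance, X, inferInstance, fun _ y => y, inferInstance,
      inferInstance, inferInstance, continuous_snd, fun _ => rfl, fun _ _ _ => rfl,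
      ⟨id, @measurable_id _ (borel X), fun x => isEmptyElim x⟩,
      ⟨id, @measurable_id _ (borel X), fun x => isEmptyElim x⟩⟩
  borelize X
  obtain ⟨π, hπ, e, val, he, hv, h1, h2⟩ := Mon.main R hr ht hR
  refine ⟨FreeMonoid Mon.N, inferInstance, Mon.top, Mon.Y, inferInstance, Mon.act π, Mon.polish,
    Mon.cmul, {}, Mon.act_cont π hπ, fun _ => rfl, fun g h y => ?_, ⟨e, ?_, fun x x' => ?_⟩,
    ⟨val, ?_, h2⟩⟩
  · simp [Mon.act, List.foldr_append]
  · rw [← BorelSpace.measurable_eq (α := Mon.Y)]; exact he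
  · rw [h2, h1, h1]
  · rw [← BorelSpace.measurable_eq (α := Mon.Y)]; exact hv

end Pool.Agent.Results.MP_c1fe20_lc.Q1
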